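import Pool.Agent.Helper94.GA.Goals
import Pool.Agent.Helper45.GA.GRDF

/-!
# Packet GRD2: types which are late are eligible
-/

namespace Pool.Agent.Helper59.GA

open Finset Filter Topology
open scoped ComplexOrder
open Pool.Agent.Helper94.GA

/-- the matrix with columns `Λ^i v`. -/
private noncomputable def Wm {e : ℕ} {C : Type} (lam : Fin e → ℂ) (v : C → Fin e → ℂ) (c : C) :
    Matrix (Fin e) (Fin e) ℂ := Matrix.of fun j i => wv lam v c (i : ℕ) j

private lemma Wm_eq {e : ℕ} {C : Type} (lam : Fin e → ℂ) (v : C → Fin e → ℂ) (c : C) :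
    Wm lam v c = Matrix.diagonal (fun j => v c j) * Matrix.vandermonde lam := by
  ext j i
  simp only [Wm, Matrix.of_apply, wv, Matrix.diagonal_mul, Matrix.vandermonde_apply]
  ring

private lemma Wm_unit {e : ℕ} {C : Type} (lam : Fin e → ℂ) (v : C → Fin e → ℂ) (c : C)
    (hinj : Function.Injective lam) (hv : ∀ c j, v c j ≠ 0) : IsUnit (Wm lam v c).det := by
  rw [Wm_eq, Matrix.det_mul, Matrix.det_diagonal, isUnit_iff_ne_zero]
  exact mul_ne_zero (Finset.prod_ne_zero_iff.mpr fun j _ => hv c j)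
    (Matrix.det_vandermonde_ne_zero_iff.mpr hinj)

/-- the coordinates. -/
private noncomputable def gam {e : ℕ} {C : Type} (lam : Fin e → ℂ) (v : C → Fin e → ℂ) (c c' : C)
    (m : ℕ) : Fin e → ℂ := (Wm lam v c')⁻¹.mulVec (fun j => (lam j)⁻¹ ^ m * v c j)

private lemma gam_tendsto {e : ℕ} {C : Type} (lam : Fin e → ℂ) (v : C → Fin e → ℂ) (c c' : C)
    (hlam : ∀ j, 1 < ‖lam j‖) :
    Tendsto (fun m => ∑ i, ‖gam lam v c c' m i‖ ^ 2) atTop (𝓝 0) := by
  have h1 : ∀ i, Tendsto (fun m => gam lam v c c' m i) atTop (𝓝 0) := by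
    intro i
    have h2 : Tendsto (fun m : ℕ => ∑ j, (Wm lam v c')⁻¹ i j * ((lam j)⁻¹ ^ m * v c j)) atTop
        (𝓝 (∑ j : Fin e, (Wm lam v c')⁻¹ i j * (0 * v c j))) := by
      refine tendsto_finsetSum _ fun j _ => ?_
      refine Tendsto.const_mul _ (Tendsto.mul_const _ ?_)
      refine tendsto_pow_atTop_nhds_zero_of_norm_lt_one ?_
      rw [norm_inv]
      exact inv_lt_one_of_one_lt₀ (hlam j)
    simp only [zero_mul, mul_zero, Finset.sum_const_zero] at h2
    exact h2
  have h3 : Tendsto (fun m => ∑ i, ‖gam lam v c c' m i‖ ^ 2) atTop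
      (𝓝 (∑ i : Fin e, ‖(0 : ℂ)‖ ^ 2)) :=
    tendsto_finsetSum _ fun i _ => ((h1 i).norm).pow 2
  simpa using h3

theorem GRD2 : GRD2_stmt := by
  intro e C _ _ lam v he hinj hlam hv s hs
  classical
  set M : ℝ := ∏ j, ‖lam j‖ with hM
  have hlam0 : ∀ j, lam j ≠ 0 := by
    intro j h
    have := hlam j
    rw [h, norm_zero] at this
    linarith
  have hM1 : 1 < M := by
    rw [hM]
    have : Nonempty (Fin e) := ⟨⟨0, he⟩⟩
    have h := Finset.prod_lt_prod_of_nonempty (s := (univ : Finset (Fin e)))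
      (f := fun _ => (1 : ℝ)) (g := fun j => ‖lam j‖) (fun _ _ => zero_lt_one)
      (fun j _ => hlam j) univ_nonempty
    simpa using h
  have hMpos : 0 < M ^ 2 - 1 := by nlinarith
  have hcard : (0 : ℝ) < Fintype.card C := by exact_mod_cast Fintype.card_pos
  have hev : ∀ᶠ m in atTop, ∀ c c' : C,
      (Fintype.card C : ℝ) * ∑ i, ‖gam lam v c c' m i‖ ^ 2 < M ^ 2 - 1 := by
    rw [eventually_all]
    intro c
    rw [eventually_all]
    intro c'
    have h := (gam_tendsto lam v c c' hlam).const_mul (Fintype.card C : ℝ)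
    rw [mul_zero] at h
    exact h.eventually_lt_const hMpos
  obtain ⟨m0, hm0⟩ := Filter.eventually_atTop.mp hev
  refine ⟨m0 + e + 1, by omega, ?_⟩
  intro t c c' htt
  set m := t c' - e - t c with hm
  have hmm : m0 ≤ m := by omega
  have hmt : t c + m + e = t c' := by omega
  obtain ⟨hPD, hval, -, hsum⟩ := Helper45.GA.GRDF e C lam v s hs t (wv lam v c (t c))
  set N := Nm lam v s t with hN
  set z := wv lam v c (t c) with hz
  set ψ := N⁻¹.mulVec z with hψ
  -- the representation of z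
  have hrep : ∀ j, z j = ∑ i : Fin e, gam lam v c c' m i * wv lam v c' (t c + m + i) j := by
    intro j
    have h1 : (Wm lam v c').mulVec (gam lam v c c' m) = fun j => (lam j)⁻¹ ^ m * v c j := by
      unfold gam
      rw [Matrix.mulVec_mulVec, Matrix.mul_nonsing_inv _ (Wm_unit lam v c' hinj hv),
        Matrix.one_mulVec]
    have h2 := congrFun h1 j
    simp only [Matrix.mulVec, dotProduct, Wm, Matrix.of_apply, wv] at h2
    have h3 : z j = lam j ^ (t c + m) * ((lam j)⁻¹ ^ m * v c j) := by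
      rw [hz]
      simp only [wv]
      rw [pow_add, inv_pow]
      have := pow_ne_zero m (hlam0 j)
      field_simp
    rw [h3, ← h2, Finset.mul_sum]
    refine Finset.sum_congr rfl fun i _ => ?_
    simp only [wv]
    rw [pow_add _ (t c + m)]
    ring
  have hdot : star ψ ⬝ᵥ z =
      ∑ i : Fin e, gam lam v c c' m i * (star ψ ⬝ᵥ wv lam v c' (t c + m + i)) := by
    simp only [dotProduct]
    rw [Finset.sum_congr rfl fun j _ => by rw [hrep j, Finset.mul_sum], Finset.sum_comm]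
    refine Finset.sum_congr rfl fun i _ => ?_
    rw [Finset.mul_sum]
    refine Finset.sum_congr rfl fun j _ => ?_
    ring
  -- the chosen terms are among the terms of the sum
  have hsub : ∑ i : Fin e, ‖star ψ ⬝ᵥ wv lam v c' (t c + m + i)‖ ^ 2 ≤
      ∑ c, ∑ l ∈ range (t c), ‖star ψ ⬝ᵥ wv lam v c l‖ ^ 2 := by
    calc ∑ i : Fin e, ‖star ψ ⬝ᵥ wv lam v c' (t c + m + i)‖ ^ 2
        = ∑ i ∈ range e, ‖star ψ ⬝ᵥ wv lam v c' (t c + m + i)‖ ^ 2 :=
          Fin.sum_univ_eq_sum_range (fun i => ‖star ψ ⬝ᵥ wv lam v c' (t c + m + i)‖ ^ 2) e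
      _ = ∑ l ∈ (range e).image (fun i => t c + m + i), ‖star ψ ⬝ᵥ wv lam v c' l‖ ^ 2 := by
          rw [Finset.sum_image (fun a _ b _ h => by simpa using h)]
      _ ≤ ∑ l ∈ range (t c'), ‖star ψ ⬝ᵥ wv lam v c' l‖ ^ 2 := by
          refine Finset.sum_le_sum_of_subset_of_nonneg ?_ (fun _ _ _ => by positivity)
          intro x hx
          rw [Finset.mem_image] at hx
          obtain ⟨i, hi, rfl⟩ := hx
          rw [Finset.mem_range] at hi ⊢
          omega
      _ ≤ _ := Finset.single_le_sum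
          (f := fun c => ∑ l ∈ range (t c), ‖star ψ ⬝ᵥ wv lam v c l‖ ^ 2)
          (fun c _ => by positivity) (Finset.mem_univ c')
  have hB : (∑ i : Fin e, ‖star ψ ⬝ᵥ wv lam v c' (t c + m + i)‖ ^ 2) ≤
      (Fintype.card C : ℝ) * qa N z := by
    refine hsub.trans ?_
    rw [one_div, inv_mul_le_iff₀ hcard] at hsum
    exact hsum
  have hqn : 0 ≤ qa N z := by
    refine le_trans ?_ hsum
    positivity
  have hCS : (qa N z) ^ 2 ≤ (∑ i, ‖gam lam v c c' m i‖ ^ 2) *
      ((Fintype.card C : ℝ) * qa N z) := by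
    have h1 : qa N z ≤ ∑ i : Fin e, ‖gam lam v c c' m i‖ *
        ‖star ψ ⬝ᵥ wv lam v c' (t c + m + i)‖ := by
      have h2 : ‖(qa N z : ℂ)‖ = qa N z := by
        rw [Complex.norm_real, Real.norm_of_nonneg hqn]
      rw [← h2, ← hval, hdot]
      refine (norm_sum_le _ _).trans (Finset.sum_le_sum fun i _ => ?_)
      rw [norm_mul]
    calc (qa N z) ^ 2 ≤ (∑ i : Fin e, ‖gam lam v c c' m i‖ *
        ‖star ψ ⬝ᵥ wv lam v c' (t c + m + i)‖) ^ 2 := pow_le_pow_left₀ hqn h1 2
      _ ≤ (∑ i, ‖gam lam v c c' m i‖ ^ 2) *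
          ∑ i : Fin e, ‖star ψ ⬝ᵥ wv lam v c' (t c + m + i)‖ ^ 2 :=
          Finset.sum_mul_sq_le_sq_mul_sq _ _ _
      _ ≤ _ := mul_le_mul_of_nonneg_left hB (by positivity)
  have hfin := hm0 m hmm c c'
  by_cases h0 : qa N z = 0
  · rw [h0]; exact hMpos.le
  · have hpos : 0 < qa N z := lt_of_le_of_ne hqn (Ne.symm h0)
    have h5 : qa N z ≤ (Fintype.card C : ℝ) * ∑ i, ‖gam lam v c c' m i‖ ^ 2 := by
      have h6 : qa N z * qa N z ≤
          ((Fintype.card C : ℝ) * ∑ i, ‖gam lam v c c' m i‖ ^ 2) * qa N z := by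
        nlinarith [hCS]
      exact le_of_mul_le_mul_right h6 hpos
    exact h5.trans hfin.le

end Pool.Agent.Helper59.GA
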